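import Pool.Agent.helper17.LQ.SpecQ

/-!
# MP_07c750 (quantum unique ergodicity), PROJECT LQ: row QRS (row sums over a set of dimension `α`)
-/

open MeasureTheory Set

set_option autoImplicit false

namespace Pool.Agent.LP

noncomputable section

/-- one term -/
theorem QRS_one {R θ α w : ℝ} (hR : 1 ≤ R) (hθ : 0 < θ) (h1 : 1 ≤ α) (h2 : α ≤ 3 / 2) (hw1 : w * R ≤ 1) (hw2 : w * (R * Real.sqrt R * θ) ≤ 1) :
    w * θ ^ (2 * (α - 1)) ≤ R ^ (-α) := by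
  have hR0 : 0 < R := by linarith
  have hx : 0 < R * θ ^ 2 := by positivity
  rcases le_total (R * θ ^ 2) 1 with h | h
  · -- `w ≤ 1/R`
    have e1 : (R * θ ^ 2) ^ (α - 1) ≤ 1 := Real.rpow_le_one hx.le h (by linarith)
    have e2 : (R * θ ^ 2) ^ (α - 1) = R ^ (α - 1) * θ ^ (2 * (α - 1)) := by
      rw [Real.mul_rpow hR0.le (by positivity), ← Real.rpow_natCast, ← Real.rpow_mul hθ.le]
      norm_num
    have e3 : R ^ (-α) = R⁻¹ * (R ^ (α - 1))⁻¹ := by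
      rw [← Real.rpow_neg_one, ← Real.rpow_neg hR0.le, ← Real.rpow_add hR0]
      congr 1; ring
    have p1 : 0 < R ^ (α - 1) := Real.rpow_pos_of_pos hR0 _
    have p2 : 0 < θ ^ (2 * (α - 1)) := Real.rpow_pos_of_pos hθ _
    have e4 : w ≤ R⁻¹ := by
      rw [← one_div, le_div_iff₀ hR0]; exact hw1
    have e5 : θ ^ (2 * (α - 1)) ≤ (R ^ (α - 1))⁻¹ := by
      rw [e2] at e1
      rw [← one_div, le_div_iff₀ p1]
      linarith
    rw [e3]
    exact (mul_le_mul_of_nonneg_right e4 p2.le).trans (mul_le_mul_of_nonneg_left e5 (by positivity))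
  · have e1 : (R * θ ^ 2) ^ (α - 3 / 2) ≤ 1 := Real.rpow_le_one_of_one_le_of_nonpos h (by linarith)
    have e2 : (R * θ ^ 2) ^ (α - 3 / 2) = R ^ (α - 3 / 2) * θ ^ (2 * (α - 3 / 2)) := by
      rw [Real.mul_rpow hR0.le (by positivity), ← Real.rpow_natCast, ← Real.rpow_mul hθ.le]
      norm_num
    have e3 : R ^ (-α) = (R ^ (3 / 2 : ℝ))⁻¹ * (R ^ (α - 3 / 2))⁻¹ := by
      rw [← Real.rpow_neg hR0.le, ← Real.rpow_neg hR0.le, ← Real.rpow_add hR0]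
      congr 1; ring
    have e6 : θ ^ (2 * (α - 1)) = θ * θ ^ (2 * (α - 3 / 2)) := by
      have e7 : θ ^ (1 + 2 * (α - 3 / 2)) = θ ^ (1 : ℝ) * θ ^ (2 * (α - 3 / 2)) := Real.rpow_add hθ _ _
      rw [Real.rpow_one] at e7
      rw [← e7]
      congr 1; ring
    have e8 : R ^ (3 / 2 : ℝ) = R * Real.sqrt R := by
      rw [Real.sqrt_eq_rpow, show (3 / 2 : ℝ) = 1 + 1 / 2 by norm_num, Real.rpow_add hR0, Real.rpow_one]
    have p1 : 0 < R ^ (α - 3 / 2) := Real.rpow_pos_of_pos hR0 _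
    have p2 : 0 < θ ^ (2 * (α - 3 / 2)) := Real.rpow_pos_of_pos hθ _
    have p3 : 0 < R ^ (3 / 2 : ℝ) := Real.rpow_pos_of_pos hR0 _
    have e4 : w * θ ≤ (R ^ (3 / 2 : ℝ))⁻¹ := by
      rw [← one_div, le_div_iff₀ p3, e8]
      linarith
    have e5 : θ ^ (2 * (α - 3 / 2)) ≤ (R ^ (α - 3 / 2))⁻¹ := by
      rw [e2] at e1
      rw [← one_div, le_div_iff₀ p1]
      linarith
    rw [e3, e6, ← mul_assoc]
    exact (mul_le_mul_of_nonneg_right e4 p2.le).trans (mul_le_mul_of_nonneg_left e5 (by positivity))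

/-- the dyadic sum for a set of dimension `α` -/
theorem QRS_sum {ι : Type} (S : Finset ι) (R : ι → ℝ) {K α M : ℝ} (hK : 0 ≤ K) (h1 : 1 ≤ α) (h2 : α ≤ 3 / 2) (hM : 1 ≤ M)
    (hR : ∀ i ∈ S, 1 ≤ R i) (hRM : ∀ i ∈ S, R i ≤ M) (hc : ∀ r : ℝ, 1 ≤ r → ((S.filter fun i => R i ≤ r).card : ℝ) ≤ K * r ^ α) :
    ∑ i ∈ S, R i ^ (-α) ≤ 4 * K * (1 + 2 * Real.log M) := by
  obtain ⟨J, hJ⟩ : ∃ J, J = Nat.log 2 ⌊M⌋₊ := ⟨_, rfl⟩
  have hMf : ⌊M⌋₊ ≠ 0 := by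
    have : 1 ≤ ⌊M⌋₊ := Nat.le_floor (by exact_mod_cast hM)
    omega
  have hlow : ∀ i ∈ S, (2 : ℝ) ^ Nat.log 2 ⌊R i⌋₊ ≤ R i ∧ R i ≤ 2 ^ (Nat.log 2 ⌊R i⌋₊ + 1) := by
    intro i hi
    have h3 := hR i hi
    have hf : ⌊R i⌋₊ ≠ 0 := by
      have : 1 ≤ ⌊R i⌋₊ := Nat.le_floor (by exact_mod_cast h3)
      omega
    constructor
    · have h4 : 2 ^ Nat.log 2 ⌊R i⌋₊ ≤ ⌊R i⌋₊ := Nat.pow_log_le_self 2 hf
      have h5 : ((2 ^ Nat.log 2 ⌊R i⌋₊ : ℕ) : ℝ) ≤ (⌊R i⌋₊ : ℝ) := by exact_mod_cast h4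
      push_cast at h5
      exact h5.trans (Nat.floor_le (by linarith))
    · have h4 : ⌊R i⌋₊ < 2 ^ (Nat.log 2 ⌊R i⌋₊ + 1) := Nat.lt_pow_succ_log_self (by norm_num) _
      have h5 : ((⌊R i⌋₊ + 1 : ℕ) : ℝ) ≤ ((2 ^ (Nat.log 2 ⌊R i⌋₊ + 1) : ℕ) : ℝ) := by exact_mod_cast h4
      push_cast at h5
      exact (Nat.lt_floor_add_one (R i)).le.trans h5
  have hmaps : ∀ i ∈ S, Nat.log 2 ⌊R i⌋₊ ∈ Finset.range (J + 1) := by
    intro i hi
    rw [Finset.mem_range, Nat.lt_succ_iff, hJ]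
    exact Nat.log_mono_right (Nat.floor_mono (hRM i hi))
  rw [← Finset.sum_fiberwise_of_maps_to hmaps]
  have hterm : ∀ j ∈ Finset.range (J + 1), ∑ i ∈ S.filter (fun i => Nat.log 2 ⌊R i⌋₊ = j), R i ^ (-α) ≤ 4 * K := by
    intro j _
    have p0 : (0 : ℝ) < 2 ^ j := by positivity
    have h3 : ∀ i ∈ S.filter (fun i => Nat.log 2 ⌊R i⌋₊ = j), R i ^ (-α) ≤ ((2 : ℝ) ^ j) ^ (-α) := by
      intro i hi
      rw [Finset.mem_filter] at hi
      have h4 := (hlow i hi.1).1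
      rw [hi.2] at h4
      exact Real.rpow_le_rpow_of_nonpos p0 h4 (by linarith)
    have h5 : ((S.filter (fun i => Nat.log 2 ⌊R i⌋₊ = j)).card : ℝ) ≤ K * ((2 : ℝ) ^ (j + 1)) ^ α := by
      refine le_trans ?_ (hc (2 ^ (j + 1)) (one_le_pow₀ (by norm_num)))
      have h6 : S.filter (fun i => Nat.log 2 ⌊R i⌋₊ = j) ⊆ S.filter (fun i => R i ≤ 2 ^ (j + 1)) := by
        intro i hi
        rw [Finset.mem_filter] at hi ⊢
        have h4 := (hlow i hi.1).2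
        rw [hi.2] at h4
        exact ⟨hi.1, h4⟩
      exact_mod_cast Finset.card_le_card h6
    refine (Finset.sum_le_card_nsmul _ _ _ h3).trans ?_
    rw [nsmul_eq_mul]
    have p1 : (0 : ℝ) < ((2 : ℝ) ^ j) ^ (-α) := Real.rpow_pos_of_pos p0 _
    refine (mul_le_mul_of_nonneg_right h5 p1.le).trans ?_
    have h7 : ((2 : ℝ) ^ (j + 1)) ^ α * ((2 : ℝ) ^ j) ^ (-α) = 2 ^ α := by
      rw [pow_succ, Real.mul_rpow p0.le (by norm_num), Real.rpow_neg p0.le]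
      have : ((2 : ℝ) ^ j) ^ α ≠ 0 := (Real.rpow_pos_of_pos p0 _).ne'
      field_simp
    have h8 : (2 : ℝ) ^ α ≤ 4 := by
      refine (Real.rpow_le_rpow_of_exponent_le (by norm_num) (show α ≤ 2 by linarith)).trans ?_
      norm_num
    rw [mul_assoc, h7]
    linarith [mul_le_mul_of_nonneg_left h8 hK]
  refine (Finset.sum_le_card_nsmul _ _ _ hterm).trans ?_
  rw [Finset.card_range, nsmul_eq_mul]
  have hJM : (J : ℝ) ≤ 2 * Real.log M := by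
    have h3 : 2 ^ J ≤ ⌊M⌋₊ := by rw [hJ]; exact Nat.pow_log_le_self 2 hMf
    have h4 : ((2 ^ J : ℕ) : ℝ) ≤ (⌊M⌋₊ : ℝ) := by exact_mod_cast h3
    push_cast at h4
    have h5 : (2 : ℝ) ^ J ≤ M := h4.trans (Nat.floor_le (by linarith))
    have h6 := Real.log_le_log (by positivity) h5
    rw [Real.log_pow] at h6
    have h7 := Real.log_two_gt_d9
    have h8 : (J : ℝ) * (1 / 2) ≤ J * Real.log 2 := mul_le_mul_of_nonneg_left (by linarith) (Nat.cast_nonneg _)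
    linarith
  push_cast
  nlinarith

/-- **Row QRS** -/
theorem QRS_proof : QRS_stmt := by
  intro C1 hC1
  have hl1 : 0 ≤ Real.log C1 := Real.log_nonneg hC1
  refine ⟨4 * (1 + 2 * Real.log C1 + 2), by linarith, ?_⟩
  intro N K α θ S w hN hK h1 h2 hθ hS s hs hw
  have hN0 : 0 < N := by linarith
  have hlN : 0 ≤ Real.log N := Real.log_nonneg hN
  obtain ⟨R, hR⟩ : ∃ R : ℝ × ℝ → ℝ, ∀ s', R s' = dR N s.1 s.2 s'.1 s'.2 := ⟨_, fun _ => rfl⟩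
  have hR1 : ∀ s' ∈ S, 1 ≤ R s' := by
    intro s' _
    rw [hR]
    exact le_max_left _ _
  have hsum := QRS_sum S R hK h1 h2 (show 1 ≤ C1 * N by nlinarith) hR1 (fun s' hs' => by rw [hR]; exact (hw s' hs').1) (by
    intro r hr
    refine le_trans ?_ (hS s hs r hr)
    have h6 : S.filter (fun s' => R s' ≤ r) ⊆ S.filter (fun s' : ℝ × ℝ => |s.1 - s'.1| ≤ r / N ∧ |s.2 - s'.2| ≤ r) := by
      intro s' hs'
      rw [Finset.mem_filter] at hs' ⊢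
      obtain ⟨hs1, hs2⟩ := hs'
      rw [hR] at hs2
      unfold dR at hs2
      have h3 := (max_le_iff.1 hs2).2
      obtain ⟨h4, h5⟩ := max_le_iff.1 h3
      refine ⟨hs1, ?_, h5⟩
      rw [le_div_iff₀ hN0]
      linarith
    exact_mod_cast Finset.card_le_card h6)
  have h3 : (∑ s' ∈ S, w s') * θ ^ (2 * (α - 1)) ≤ ∑ s' ∈ S, R s' ^ (-α) := by
    rw [Finset.sum_mul]
    refine Finset.sum_le_sum fun s' hs' => ?_
    obtain ⟨-, a1, a2⟩ := hw s' hs'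
    rw [← hR] at a1 a2
    exact QRS_one (hR1 s' hs') hθ h1 h2 a1 a2
  refine (h3.trans hsum).trans ?_
  rw [Real.log_mul (by linarith) (by linarith)]
  have h4 : 1 + 2 * (Real.log C1 + Real.log N) ≤ (1 + 2 * Real.log C1 + 2) * (1 + Real.log N) := by
    nlinarith [mul_nonneg hl1 hlN]
  have h5 := mul_le_mul_of_nonneg_left h4 (show 0 ≤ 4 * K by linarith)
  refine h5.trans (le_of_eq ?_)
  ring

end

end Pool.Agent.LP
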