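import Pool.Agent.helper57.LQ.SpecB

/-! # Project lq, module MEN: a principle for modular equations -/

set_option autoImplicit false

open Finset

noncomputable section

namespace Pool.Agent.LQ

open Pool.Agent.EP (KK ww WW IsT)

/-- The substitution `x ↦ x ^ l` for Laurent series. -/
def MEN_ex (l : ℕ) (hl : 0 < l) : KK →+* KK :=
  HahnSeries.embDomainRingHom (AddMonoidHom.mulLeft (l : ℤ))
    (fun a b h => by
      have h' : (l : ℤ) * a = (l : ℤ) * b := h
      exact mul_left_cancel₀ (by exact_mod_cast hl.ne') h')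
    (fun a b => by
      have h0 : (0 : ℤ) < l := by exact_mod_cast hl
      change (l : ℤ) * a ≤ (l : ℤ) * b ↔ a ≤ b
      exact mul_le_mul_iff_of_pos_left h0)

theorem MEN_ex_coeff (l : ℕ) (hl : 0 < l) (f : KK) (M : ℤ) :
    (MEN_ex l hl f).coeff M = if (l : ℤ) ∣ M then f.coeff (M / l) else 0 := by
  have h0 : (l : ℤ) ≠ 0 := by exact_mod_cast hl.ne'
  by_cases h : (l : ℤ) ∣ M
  · obtain ⟨m, rfl⟩ := h
    rw [if_pos (dvd_mul_right _ _), Int.mul_ediv_cancel_left _ h0]
    exact HahnSeries.embDomain_coeff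
  · rw [if_neg h]
    exact HahnSeries.embDomain_of_notMem_range (by
      rintro ⟨m, rfl⟩
      exact h (dvd_mul_right _ _))

/-- `g` has the coefficients of `f` at the multiples of `l`. -/
def MEN_U (l : ℕ) (f g : KK) : Prop := ∀ M : ℤ, g.coeff M = f.coeff (l * M)

theorem MEN_mul {l : ℕ} (hl : 0 < l) {G g : KK} (hG : MEN_U l G g) (H : KK) :
    MEN_U l (G * MEN_ex l hl H) (g * H) := by
  intro M
  have h0 : (l : ℤ) ≠ 0 := by exact_mod_cast hl.ne'
  rw [HahnSeries.coeff_mul, HahnSeries.coeff_mul]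
  refine Finset.sum_nbij (fun p => ((l : ℤ) * p.1, (l : ℤ) * p.2)) ?_ ?_ ?_ ?_
  · rintro ⟨a, b⟩ hp
    rw [Finset.mem_antidiagonal] at hp ⊢
    obtain ⟨h1, h2, h3⟩ := hp
    rw [HahnSeries.mem_support] at h1 h2
    refine ⟨?_, ?_, ?_⟩
    · rw [HahnSeries.mem_support, ← hG]
      exact h1
    · rw [HahnSeries.mem_support, MEN_ex_coeff, if_pos (dvd_mul_right _ _),
        Int.mul_ediv_cancel_left _ h0]
      exact h2
    · simp only at h3 ⊢
      rw [← h3]
      ring
  · rintro ⟨a, b⟩ _ ⟨a', b'⟩ _ h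
    simp only [Prod.mk.injEq] at h
    exact Prod.ext (mul_left_cancel₀ h0 h.1) (mul_left_cancel₀ h0 h.2)
  · rintro ⟨a, b⟩ hp
    rw [Finset.mem_coe, Finset.mem_antidiagonal] at hp
    obtain ⟨h1, h2, h3⟩ := hp
    rw [HahnSeries.mem_support] at h1 h2
    simp only at h1 h2 h3
    rw [MEN_ex_coeff] at h2
    have hb : (l : ℤ) ∣ b := by
      by_contra hb
      rw [if_neg hb] at h2
      exact h2 rfl
    rw [if_pos hb] at h2
    obtain ⟨b', rfl⟩ := hb
    have ha : (l : ℤ) ∣ a := by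
      have : a = (l : ℤ) * (M - b') := by linarith
      rw [this]
      exact dvd_mul_right _ _
    obtain ⟨a', rfl⟩ := ha
    rw [Int.mul_ediv_cancel_left _ h0] at h2
    refine ⟨(a', b'), ?_, rfl⟩
    rw [Finset.mem_coe, Finset.mem_antidiagonal]
    refine ⟨?_, ?_, ?_⟩
    · rw [HahnSeries.mem_support, hG]
      exact h1
    · rw [HahnSeries.mem_support]
      exact h2
    · simp only
      have : (l : ℤ) * (a' + b') = l * M := by linarith
      exact mul_left_cancel₀ h0 this
  · rintro ⟨a, b⟩ _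
    simp only
    rw [MEN_ex_coeff, if_pos (dvd_mul_right _ _), Int.mul_ediv_cancel_left _ h0, hG]

theorem MEN_sum {ι : Type*} (s : Finset ι) {l : ℕ} {f g : ι → KK} (a : ι → ZMod 2)
    (h : ∀ i ∈ s, MEN_U l (f i) (g i)) : MEN_U l (∑ i ∈ s, a i • f i) (∑ i ∈ s, a i • g i) := by
  intro M
  rw [HahnSeries.coeff_sum, HahnSeries.coeff_sum]
  refine Finset.sum_congr rfl fun i hi => ?_
  rw [HahnSeries.coeff_smul, HahnSeries.coeff_smul, h i hi]

theorem MEN_self (f : KK) : f + f = 0 := by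
  ext M
  rw [HahnSeries.coeff_add, HahnSeries.coeff_zero]
  exact CharTwo.add_self_eq_zero _

theorem MEN_WW {f : KK} (hf : f ∈ WW) (j : ℕ) : f * ww ^ j ∈ WW := by
  unfold WW at hf ⊢
  induction hf using Submodule.span_induction with
  | mem x hx =>
    obtain ⟨i, hi, rfl⟩ := hx
    rw [← pow_add]
    exact Submodule.subset_span ⟨i + j, by omega, rfl⟩
  | zero => rw [zero_mul]; exact Submodule.zero_mem _
  | add x y _ _ hx hy => rw [add_mul]; exact Submodule.add_mem _ hx hy
  | smul a x _ hx => rw [smul_mul_assoc]; exact Submodule.smul_mem _ _ hx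

theorem MEN_alg (a : ZMod 2) (f : KK) : algebraMap (ZMod 2) KK a * f = a • f := by
  have h : ∀ b : ZMod 2, b = 0 ∨ b = 1 := by decide
  rcases h a with rfl | rfl
  · rw [map_zero, zero_mul, zero_smul]
  · rw [map_one, one_mul, one_smul]

theorem MEN_aeval (a b : KK) (q : MvPolynomial (Fin 2) (ZMod 2)) :
    MvPolynomial.aeval ![a, b] q = ∑ d ∈ q.support, q.coeff d • (a ^ (d 0) * b ^ (d 1)) := by
  rw [MvPolynomial.aeval_def, MvPolynomial.eval₂_eq']
  refine Finset.sum_congr rfl fun d _ => ?_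
  rw [Fin.prod_univ_two, MEN_alg]
  simp

theorem MEN_pos_pow {F : KK} (hF : ∀ M : ℤ, M ≤ 0 → F.coeff M = 0) (hF0 : F ≠ 0) :
    0 < HahnSeries.order F := by
  by_contra h
  push Not at h
  have h1 := hF _ h
  rw [HahnSeries.coeff_order_eq_zero] at h1
  exact hF0 h1

theorem MEN (hTW : Pool.Agent.EP.TW_stmt) (hNEG : Pool.Agent.EP.NEG_stmt) : MEN_stmt := by
  intro l n c hl hl5 hc wl hwl hF
  have hl0 : 0 < l := hl.pos
  have hlz : (0 : ℤ) < l := by exact_mod_cast hl0
  have hwl' : wl = MEN_ex l hl0 ww := by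
    ext M
    rw [hwl, MEN_ex_coeff]
  set p : MvPolynomial (Fin 2) (ZMod 2) := ∑ i ∈ range n, ∑ j ∈ range n,
    MvPolynomial.C (c i j) * (MvPolynomial.X 0 ^ i * MvPolynomial.X 1 ^ j) with hp
  set F : KK := ∑ i ∈ range n, ∑ j ∈ range n, c i j • (ww ^ i * wl ^ j) with hFdef
  have hpF : MvPolynomial.aeval ![ww, wl] p = F := by
    rw [hp, hFdef]
    simp only [map_sum, map_mul, map_pow, MvPolynomial.aeval_X, MvPolynomial.aeval_C,
      Matrix.cons_val_zero, Matrix.cons_val_one, MEN_alg]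
  have hsym : MvPolynomial.rename (Equiv.swap (0 : Fin 2) 1) p = p := by
    rw [hp]
    simp only [map_sum, map_mul, map_pow, MvPolynomial.rename_X, MvPolynomial.rename_C,
      Equiv.swap_apply_left, Equiv.swap_apply_right]
    rw [Finset.sum_comm]
    refine Finset.sum_congr rfl fun i _ => Finset.sum_congr rfl fun j _ => ?_
    rw [hc j i, mul_comm (MvPolynomial.X 1 ^ j) (MvPolynomial.X 0 ^ i)]
  have hsym' : MvPolynomial.rename (Equiv.swap (0 : Fin 2) 1) (p ^ l) = p ^ l := by
    rw [map_pow, hsym]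
  have h1 : F ^ l = MvPolynomial.aeval ![ww, wl] (p ^ l) := by rw [map_pow, hpF]
  have h2 : F ^ l = MvPolynomial.aeval ![wl, ww] (p ^ l) := by
    rw [h1]
    conv_rhs => rw [← hsym']
    rw [MvPolynomial.aeval_rename]
    have : (![wl, ww] : Fin 2 → KK) ∘ (Equiv.swap (0 : Fin 2) 1) = ![ww, wl] := by
      funext i
      fin_cases i <;> simp
    rw [this]
  -- the images under the Hecke operator
  have hH : ∀ i : ℕ, ∃ h ∈ WW, IsT l (ww ^ i) h := by
    intro i
    rcases Nat.eq_zero_or_pos i with rfl | hi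
    · refine ⟨0, Submodule.zero_mem _, ?_⟩
      intro M
      rw [pow_zero, HahnSeries.coeff_zero, HahnSeries.coeff_one, HahnSeries.coeff_one]
      by_cases hM : M = 0
      · subst hM
        simp
        exact (CharTwo.add_self_eq_zero (1 : ZMod 2)).symm
      · have h3 : (l : ℤ) * M ≠ 0 := mul_ne_zero hlz.ne' hM
        rw [if_neg h3, zero_add]
        by_cases hd : (l : ℤ) ∣ M
        · rw [if_pos hd]
          obtain ⟨m, rfl⟩ := hd
          rw [Int.mul_ediv_cancel_left _ hlz.ne', if_neg]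
          rintro rfl
          exact hM (mul_zero _)
        · rw [if_neg hd]
    · exact hTW l hl hl5 _ (Submodule.subset_span ⟨i, hi, rfl⟩)
  choose h hhW hhT using hH
  have hg : ∀ i : ℕ, MEN_U l (ww ^ i) (h i + wl ^ i) := by
    intro i M
    rw [HahnSeries.coeff_add, hhT i M, hwl', ← map_pow, MEN_ex_coeff, add_assoc,
      CharTwo.add_self_eq_zero, add_zero]
  set G : KK := ∑ d ∈ (p ^ l).support, (p ^ l).coeff d • ((h (d 0) + wl ^ (d 0)) * ww ^ (d 1))
    with hG
  have hUG : MEN_U l (F ^ l) G := by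
    rw [h1, MEN_aeval, hG]
    refine MEN_sum _ _ fun d _ => ?_
    rw [hwl', ← map_pow (MEN_ex l hl0) ww (d 1)]
    have := MEN_mul hl0 (hg (d 0)) (ww ^ (d 1))
    rwa [hwl'] at this
  have hsum : G + F ^ l ∈ WW := by
    rw [h2, MEN_aeval, hG, ← Finset.sum_add_distrib]
    refine Submodule.sum_mem _ fun d _ => ?_
    rw [← smul_add, ← add_mul, add_assoc, MEN_self, add_zero]
    exact Submodule.smul_mem _ _ (MEN_WW (hhW _) _)
  by_contra hF0
  have hk := MEN_pos_pow hF hF0
  have hFl : F ^ l ≠ 0 := pow_ne_zero _ hF0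
  have hord : HahnSeries.order (F ^ l) = (l : ℤ) * HahnSeries.order F := by
    rw [HahnSeries.order_pow, nsmul_eq_mul]
  have hk' : HahnSeries.order F < (l : ℤ) * HahnSeries.order F := by
    have : (1 : ℤ) < l := by exact_mod_cast hl.one_lt
    nlinarith
  have hlow : ∀ M : ℤ, M < (l : ℤ) * HahnSeries.order F → (F ^ l).coeff M = 0 := by
    intro M hM
    apply HahnSeries.coeff_eq_zero_of_lt_order
    rw [hord]
    exact hM
  have hzero : G + F ^ l = 0 := by
    refine hNEG _ hsum fun M hM => ?_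
    rw [HahnSeries.coeff_add, hUG M, hlow M (by nlinarith), hlow _ (by nlinarith), add_zero]
  have h3 : (G + F ^ l).coeff (HahnSeries.order F) = 0 := by rw [hzero, HahnSeries.coeff_zero]
  rw [HahnSeries.coeff_add, hUG, hlow _ hk', add_zero, ← hord] at h3
  rw [HahnSeries.coeff_order_eq_zero] at h3
  exact hFl h3

end Pool.Agent.LQ
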